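import Pool.Agent.helper13.UN.SpecG

/-!
# Row unh:PTF (MP_cf4097_nt): Poisson summation for the theta series `Sb`
-/

set_option autoImplicit false

open NumberField Complex

namespace Pool.Agent.UN

theorem PTF_equiv (hDUA : DUA_stmt) (K : Type) [Field K] [NumberField K] (M C : Ideal (𝓞 K)) (β : 𝓞 K)
    (hM : M ≠ ⊥) (hC : C ≠ ⊥) (hβ : β ≠ 0) (hs : Ideal.span {β} = M * C * differentIdeal ℤ (𝓞 K)) :
    ∃ Φ : C ≃ Du M, ∀ x : C, ((Φ x : Du M) : K) = ((x : 𝓞 K) : K) / ((β : 𝓞 K) : K) := by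
  have hβK : ((β : 𝓞 K) : K) ≠ 0 := by
    intro h0
    apply hβ
    exact_mod_cast h0
  have hmem : ∀ x : C, (((x : 𝓞 K) : K) / ((β : 𝓞 K) : K)) ∈ Du M := by
    intro x
    exact (hDUA K M C β hM hC hβ hs _).2 ⟨x, x.2, div_mul_cancel₀ _ hβK⟩
  refine ⟨Equiv.ofBijective (fun x : C => (⟨((x : 𝓞 K) : K) / ((β : 𝓞 K) : K), hmem x⟩ : Du M)) ⟨?_, ?_⟩, ?_⟩
  · intro x x' h
    have h1 : ((x : 𝓞 K) : K) / ((β : 𝓞 K) : K) = ((x' : 𝓞 K) : K) / ((β : 𝓞 K) : K) :=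
      congrArg (Subtype.val : Du M → K) h
    have h2 : ((x : 𝓞 K) : K) = ((x' : 𝓞 K) : K) := by
      rwa [div_left_inj' hβK] at h1
    apply Subtype.ext
    exact_mod_cast h2
  · rintro ⟨ξ, hξ⟩
    obtain ⟨x, hx, hxe⟩ := (hDUA K M C β hM hC hβ hs ξ).1 hξ
    refine ⟨⟨x, hx⟩, ?_⟩
    apply Subtype.ext
    show ((x : 𝓞 K) : K) / ((β : 𝓞 K) : K) = ξ
    rw [div_eq_iff hβK]
    exact hxe.symm
  · intro x
    rfl

theorem PTF (hPNF : PNF_stmt) (hSPT : SPT_stmt) (hDUA : DUA_stmt) : PTF_stmt := by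
  intro K _ _ b b' f F β ν m e y hb hb' hf hF hAd hbf hβ hs hν hν1 hy
  obtain ⟨hm, he, hec⟩ := hAd
  have hbf0 : b * f ≠ ⊥ := by
    intro h0
    rcases Ideal.mul_eq_bot.1 h0 with h | h
    · exact hb h
    · exact hf h
  obtain ⟨Φ, hΦ⟩ := PTF_equiv hDUA K (b * f) b' β hbf0 hb' hβ hs
  set CC : ℂ := (-I) ^ (∑ w, aa m e w) / (((Dc K) ^ (1 / 2 : ℝ) * Nm (b * f) : ℝ) : ℂ) *
    ((∏ w : InfinitePlace K, (y w) ^ (-((w.mult : ℝ) / 2 + aa m e w)) : ℝ) : ℂ) with hCC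
  have h1 : Summable (fun x : b => (fun x : 𝓞 K => Pm m e (x : K) * (Ga y (x : K) : ℂ)) (x : 𝓞 K)) := by
    have h := (hPNF K b 0 m e y hb hm he hec hy).1
    simp only [add_zero] at h
    exact h
  obtain ⟨hsum, hval⟩ := hSPT K b f F ν (fun x : 𝓞 K => Pm m e (x : K) * (Ga y (x : K) : ℂ)) hb hf hF hν hν1 hbf h1
  have hS : Sb b F m e y = ∑' x : b, F (x : 𝓞 K) * (Pm m e ((x : 𝓞 K) : K) * (Ga y ((x : 𝓞 K) : K) : ℂ)) := by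
    unfold Sb
    apply tsum_congr
    intro x
    ring
  have hterm : ∀ (u : 𝓞 K ⧸ f) (x : b'),
      et (((Φ x : Du (b * f)) : K) * ((ν * ou u : 𝓞 K) : K)) * (starRingEnd ℂ) (Pm m e ((Φ x : Du (b * f)) : K)) *
        (Ga (fun w => 1 / y w) ((Φ x : Du (b * f)) : K) : ℂ) =
      et (((ν * (x : 𝓞 K) : 𝓞 K) : K) / ((β : 𝓞 K) : K) * ((ou u : 𝓞 K) : K)) *
        (starRingEnd ℂ) (Pm m e (((x : 𝓞 K) : K) / ((β : 𝓞 K) : K))) *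
        (Ga (fun w => 1 / y w) (((x : 𝓞 K) : K) / ((β : 𝓞 K) : K)) : ℂ) := by
    intro u x
    have hh : (((x : 𝓞 K) : K) / ((β : 𝓞 K) : K)) * ((ν * ou u : 𝓞 K) : K) =
        ((ν * (x : 𝓞 K) : 𝓞 K) : K) / ((β : 𝓞 K) : K) * ((ou u : 𝓞 K) : K) := by
      push_cast
      ring
    rw [hΦ x, hh]
  have hsm : ∀ u : 𝓞 K ⧸ f, Summable (fun x : b' =>
      et (((ν * (x : 𝓞 K) : 𝓞 K) : K) / ((β : 𝓞 K) : K) * ((ou u : 𝓞 K) : K)) *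
        (starRingEnd ℂ) (Pm m e (((x : 𝓞 K) : K) / ((β : 𝓞 K) : K))) *
        (Ga (fun w => 1 / y w) (((x : 𝓞 K) : K) / ((β : 𝓞 K) : K)) : ℂ)) := by
    intro u
    have h := (hPNF K (b * f) (ν * ou u) m e y hbf0 hm he hec hy).2.1
    have h2 := (Equiv.summable_iff Φ).2 h
    refine h2.congr ?_
    intro x
    exact (hterm u x)
  have key : ∀ u : 𝓞 K ⧸ f,
      ∑' z : (b * f : Ideal (𝓞 K)), Pm m e (((z : 𝓞 K) + ν * ou u : 𝓞 K) : K) *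
        (Ga y (((z : 𝓞 K) + ν * ou u : 𝓞 K) : K) : ℂ) =
      CC * ∑' x : b', et (((ν * (x : 𝓞 K) : 𝓞 K) : K) / ((β : 𝓞 K) : K) * ((ou u : 𝓞 K) : K)) *
        (starRingEnd ℂ) (Pm m e (((x : 𝓞 K) : K) / ((β : 𝓞 K) : K))) *
        (Ga (fun w => 1 / y w) (((x : 𝓞 K) : K) / ((β : 𝓞 K) : K)) : ℂ) := by
    intro u
    have h := (hPNF K (b * f) (ν * ou u) m e y hbf0 hm he hec hy).2.2
    rw [h, ← hCC]
    congr 1
    rw [← Equiv.tsum_eq Φ]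
    exact tsum_congr (hterm u)
  have : Finite (𝓞 K ⧸ f) := Ideal.finiteQuotientOfFreeOfNeBot f hf
  cases nonempty_fintype (𝓞 K ⧸ f)
  have hgs : ∀ x : b', gs f F (((ν * (x : 𝓞 K) : 𝓞 K) : K) / ((β : 𝓞 K) : K)) =
      ∑ u : 𝓞 K ⧸ f, F (ou u) *
        et (((ν * (x : 𝓞 K) : 𝓞 K) : K) / ((β : 𝓞 K) : K) * ((ou u : 𝓞 K) : K)) := by
    intro x
    unfold gs
    rw [finsum_eq_sum_of_fintype]
  have hfin : ∑' x : b', gs f F (((ν * (x : 𝓞 K) : 𝓞 K) : K) / ((β : 𝓞 K) : K)) *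
      (starRingEnd ℂ) (Pm m e (((x : 𝓞 K) : K) / ((β : 𝓞 K) : K))) *
      (Ga (fun w => 1 / y w) (((x : 𝓞 K) : K) / ((β : 𝓞 K) : K)) : ℂ) =
      ∑ u : 𝓞 K ⧸ f, F (ou u) * ∑' x : b',
        et (((ν * (x : 𝓞 K) : 𝓞 K) : K) / ((β : 𝓞 K) : K) * ((ou u : 𝓞 K) : K)) *
        (starRingEnd ℂ) (Pm m e (((x : 𝓞 K) : K) / ((β : 𝓞 K) : K))) *
        (Ga (fun w => 1 / y w) (((x : 𝓞 K) : K) / ((β : 𝓞 K) : K)) : ℂ) := by
    have h3 : ∀ x : b', gs f F (((ν * (x : 𝓞 K) : 𝓞 K) : K) / ((β : 𝓞 K) : K)) *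
        (starRingEnd ℂ) (Pm m e (((x : 𝓞 K) : K) / ((β : 𝓞 K) : K))) *
        (Ga (fun w => 1 / y w) (((x : 𝓞 K) : K) / ((β : 𝓞 K) : K)) : ℂ) =
        ∑ u : 𝓞 K ⧸ f, F (ou u) *
          (et (((ν * (x : 𝓞 K) : 𝓞 K) : K) / ((β : 𝓞 K) : K) * ((ou u : 𝓞 K) : K)) *
          (starRingEnd ℂ) (Pm m e (((x : 𝓞 K) : K) / ((β : 𝓞 K) : K))) *
          (Ga (fun w => 1 / y w) (((x : 𝓞 K) : K) / ((β : 𝓞 K) : K)) : ℂ)) := by
      intro x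
      rw [hgs x, Finset.sum_mul, Finset.sum_mul]
      apply Finset.sum_congr rfl
      intro u _
      ring
    rw [tsum_congr h3, Summable.tsum_finsetSum (fun u _ => (hsm u).mul_left _)]
    apply Finset.sum_congr rfl
    intro u _
    rw [tsum_mul_left]
  rw [hS, hval, finsum_eq_sum_of_fintype, hfin, Finset.mul_sum]
  apply Finset.sum_congr rfl
  intro u _
  rw [key u]
  ring

end Pool.Agent.UN
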