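import Pool.Agent.helper82.UN.SpecP

/-!
# Row unh:PBX (MP_cf4097_nt): the space `ℝ^ι` is the disjoint union of the translates of the unit cube
-/

set_option autoImplicit false

open NumberField Complex MeasureTheory nonZeroDivisors

namespace Pool.Agent.UN

/-- the half open cube with lower corner `k` -/
def PBX_A {ι : Type} (k : ι → ℤ) : Set (ι → ℝ) := {t | ∀ i, t i ∈ Set.Ioc (k i : ℝ) (k i + 1)}

theorem PBX_meas {ι : Type} [Fintype ι] (k : ι → ℤ) : MeasurableSet (PBX_A k) := by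
  have h : PBX_A k = Set.pi Set.univ (fun i => Set.Ioc (k i : ℝ) (k i + 1)) := by
    ext t
    simp [PBX_A, Set.mem_pi]
  rw [h]
  exact MeasurableSet.univ_pi (fun i => measurableSet_Ioc)

theorem PBX_disj {ι : Type} : Pairwise (Function.onFun Disjoint (PBX_A (ι := ι))) := by
  intro k l hkl
  rw [Function.onFun, Set.disjoint_left]
  intro t h1 h2
  apply hkl
  funext i
  have a : (k i : ℝ) < l i + 1 := lt_of_lt_of_le (h1 i).1 (h2 i).2
  have b : (l i : ℝ) < k i + 1 := lt_of_lt_of_le (h2 i).1 (h1 i).2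
  have a' : k i < l i + 1 := by exact_mod_cast a
  have b' : l i < k i + 1 := by exact_mod_cast b
  omega

theorem PBX_univ {ι : Type} : ⋃ k : ι → ℤ, PBX_A k = Set.univ := by
  apply Set.eq_univ_of_forall
  intro t
  rw [Set.mem_iUnion]
  refine ⟨fun i => ⌈t i⌉ - 1, fun i => ?_⟩
  constructor
  · push_cast
    linarith [Int.ceil_lt_add_one (t i)]
  · push_cast
    linarith [Int.le_ceil (t i)]

theorem PBX_shift {ι : Type} (k : ι → ℤ) (t : ι → ℝ) :
    t + zc k ∈ PBX_A k ↔ t ∈ {t : ι → ℝ | ∀ i, t i ∈ Set.Ioc (0 : ℝ) 1} := by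
  simp only [PBX_A, Set.mem_setOf_eq, Pi.add_apply, zc, Set.mem_Ioc]
  constructor
  · intro h i
    exact ⟨by linarith [(h i).1], by linarith [(h i).2]⟩
  · intro h i
    exact ⟨by linarith [(h i).1], by linarith [(h i).2]⟩

theorem PBX_zero {ι : Type} [Fintype ι] : MeasurableSet {t : ι → ℝ | ∀ i, t i ∈ Set.Ioc (0 : ℝ) 1} := by
  have h : {t : ι → ℝ | ∀ i, t i ∈ Set.Ioc (0 : ℝ) 1} = Set.pi Set.univ (fun _ => Set.Ioc (0 : ℝ) 1) := by
    ext t
    simp [Set.mem_pi]
  rw [h]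
  exact MeasurableSet.univ_pi (fun i => measurableSet_Ioc)

theorem PBX : PBX_stmt := by
  intro ι _ f hf
  classical
  have h := hasSum_integral_iUnion (μ := volume) (f := f) (fun k => PBX_meas (ι := ι) k) PBX_disj hf.integrableOn
  rw [PBX_univ, Measure.restrict_univ] at h
  have hk : ∀ k : ι → ℤ, ∫ t in PBX_A k, f t =
      ∫ t in {t : ι → ℝ | ∀ i, t i ∈ Set.Ioc (0 : ℝ) 1}, f (t + zc k) := by
    intro k
    rw [← integral_indicator (PBX_meas k), ← integral_indicator PBX_zero,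
      ← integral_add_right_eq_self (fun t => (PBX_A k).indicator f t) (zc k)]
    congr 1
    funext t
    by_cases ht : t ∈ {t : ι → ℝ | ∀ i, t i ∈ Set.Ioc (0 : ℝ) 1}
    · rw [Set.indicator_of_mem ht, Set.indicator_of_mem ((PBX_shift k t).2 ht)]
    · rw [Set.indicator_of_notMem ht, Set.indicator_of_notMem (fun h => ht ((PBX_shift k t).1 h))]
  have he : (fun k : ι → ℤ => ∫ t in {t : ι → ℝ | ∀ i, t i ∈ Set.Ioc (0 : ℝ) 1}, f (t + zc k)) =
      fun k : ι → ℤ => ∫ t in PBX_A k, f t := by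
    funext k
    exact (hk k).symm
  rw [he]
  exact h

end Pool.Agent.UN
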